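import Pool.Agent.H64.JS.CNJ

/-!
# Module CNK: conjugacies on the Julia sets and components of the closure of the critical orbits
-/

set_option autoImplicit false

open Filter Topology Metric Set

namespace Pool.Agent.H64.JS

variable {X : Type*} [TopologicalSpace X]

/-- the closure of the forward orbits of the points of `C ∩ J` -/
def KJ (C J : Set X) (f : X → X) : Set X := closure {y | ∃ c, c ∈ C ∧ c ∈ J ∧ ∃ n : ℕ, 1 ≤ n ∧ f^[n] c = y}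

/-- the closure of the forward orbit of `f c` -/
def OC (f : X → X) (c : X) : Set X := closure {y | ∃ n : ℕ, 1 ≤ n ∧ f^[n] c = y}

theorem it_mem {J1 : Set X} {f : X → X} (hf : ∀ x ∈ J1, f x ∈ J1) {x : X} (hx : x ∈ J1) (n : ℕ) :
    f^[n] x ∈ J1 := by
  have : MapsTo f J1 J1 := hf
  exact this.iterate n hx

theorem kj_sub {C J : Set X} {f : X → X} (hJ : IsClosed J) (hf : ∀ x ∈ J, f x ∈ J) : KJ C J f ⊆ J := by
  refine closure_minimal ?_ hJ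
  rintro y ⟨c, -, hc, n, -, rfl⟩
  exact it_mem hf hc n

theorem con_cl {J1 J2 : Set X} {h : J1 ≃ₜ J2} {A1 A2 : Set X}
    (hA : ∀ a (ha : a ∈ J1), a ∈ A1 → (h ⟨a, ha⟩ : X) ∈ A2) (hA1 : A1 ⊆ J1) {y : J1}
    (hy : (y : X) ∈ closure A1) : (h y : X) ∈ closure A2 := by
  rw [mem_closure_iff_nhds] at hy ⊢
  intro U hU
  have h1 : {z : J1 | (h z : X) ∈ U} ∈ 𝓝 y := by
    have h2 : Continuous fun z : J1 => (h z : X) := continuous_subtype_val.comp h.continuous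
    exact h2.continuousAt hU
  obtain ⟨U', hU', h2⟩ := nhds_sub h1
  obtain ⟨a, ha1, ha2⟩ := hy U' hU'
  exact ⟨h ⟨a, hA1 ha2⟩, h2 ⟨a, hA1 ha2⟩ ha1, hA a (hA1 ha2) ha2⟩

theorem con_kj {J1 J2 : Set X} {f g : X → X} (hf : ∀ x ∈ J1, f x ∈ J1)
    {C1 C2 : Set X} (hC1 : ∀ c ∈ J1, c ∈ C1 ↔ NInj J1 f c) (hC2 : ∀ c ∈ J2, c ∈ C2 ↔ NInj J2 g c) {h : J1 ≃ₜ J2}
    (hh : ∀ x y : J1, f x = y → g (h x) = h y) {y : J1} (hy : (y : X) ∈ KJ C1 J1 f) : (h y : X) ∈ KJ C2 J2 g := by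
  refine con_cl (h := h) ?_ ?_ hy
  · rintro a ha ⟨c, hc, hcJ, n, hn, he⟩
    refine ⟨h ⟨c, hcJ⟩, (hC2 _ (h ⟨c, hcJ⟩).2).2 (con_ninj hf hh ((hC1 c hcJ).1 hc)), (h ⟨c, hcJ⟩).2, n, hn, ?_⟩
    exact con_it hf hh n ⟨c, hcJ⟩ ⟨a, ha⟩ he
  · rintro a ⟨c, hc, hcJ, n, hn, rfl⟩
    exact it_mem hf hcJ n

theorem con_oc {J1 J2 : Set X} {f g : X → X} (hf : ∀ x ∈ J1, f x ∈ J1) {h : J1 ≃ₜ J2}
    (hh : ∀ x y : J1, f x = y → g (h x) = h y) {c y : J1} (hy : (y : X) ∈ OC f c) : (h y : X) ∈ OC g (h c) := by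
  refine con_cl (h := h) ?_ ?_ hy
  · rintro a ha ⟨n, hn, he⟩
    exact ⟨n, hn, con_it hf hh n c ⟨a, ha⟩ he⟩
  · rintro a ⟨n, hn, rfl⟩
    exact it_mem hf c.2 n

theorem con_pre {J1 J2 : Set X} (h : J1 ≃ₜ J2) {S : Set X} (hS : IsPreconnected S) (hSJ : S ⊆ J1) :
    IsPreconnected ((fun z : J1 => (h z : X)) '' (Subtype.val ⁻¹' S)) := by
  have h1 : IsPreconnected ((Subtype.val : J1 → X) ⁻¹' S) := by
    rw [← IsInducing.subtypeVal.isPreconnected_image, image_preimage_eq_of_subset]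
    · exact hS
    · rw [Subtype.range_coe]
      exact hSJ
  have h2 : Continuous fun z : J1 => (h z : X) := continuous_subtype_val.comp h.continuous
  exact h1.image _ h2.continuousOn

/-- the component property is invariant under conjugacies on the Julia sets -/
theorem con_cmp {J1 J2 : Set X} {f g : X → X} (hJ2 : IsClosed J2) (hf : ∀ x ∈ J1, f x ∈ J1)
    (hg : ∀ x ∈ J2, g x ∈ J2)
    {C1 C2 : Set X} (hC1 : ∀ c ∈ J1, c ∈ C1 ↔ NInj J1 f c) (hC2 : ∀ c ∈ J2, c ∈ C2 ↔ NInj J2 g c) {h : J1 ≃ₜ J2}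
    (hh : ∀ x y : J1, f x = y → g (h x) = h y)
    (H : ∀ c ∈ C2, c ∈ J2 → (connectedComponentIn (KJ C2 J2 g) c ∩ OC g c).Nonempty) :
    ∀ c ∈ C1, c ∈ J1 → (connectedComponentIn (KJ C1 J1 f) c ∩ OC f c).Nonempty := by
  intro c hc hcJ
  have hs := con_symm hf hh
  obtain ⟨y, hy1, hy2⟩ := H (h ⟨c, hcJ⟩) ((hC2 _ (h ⟨c, hcJ⟩).2).2 (con_ninj hf hh ((hC1 c hcJ).1 hc)))
    (h ⟨c, hcJ⟩).2
  obtain ⟨S, hS⟩ : ∃ S, S = connectedComponentIn (KJ C2 J2 g) (h ⟨c, hcJ⟩ : X) := ⟨_, rfl⟩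
  rw [← hS] at hy1
  have hSK : S ⊆ KJ C2 J2 g := by rw [hS]; exact connectedComponentIn_subset _ _
  have hSJ : S ⊆ J2 := hSK.trans (kj_sub hJ2 hg)
  have hcS : (h ⟨c, hcJ⟩ : X) ∈ S := by
    rw [hS]
    apply mem_connectedComponentIn
    by_contra hn
    rw [hS, connectedComponentIn_eq_empty hn] at hy1
    exact hy1
  have hSp : IsPreconnected S := by rw [hS]; exact isPreconnected_connectedComponentIn
  have hT := con_pre h.symm hSp hSJ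
  refine ⟨h.symm ⟨y, hSJ hy1⟩, ?_, ?_⟩
  · refine hT.subset_connectedComponentIn ?_ ?_ ?_
    · refine ⟨h ⟨c, hcJ⟩, hcS, ?_⟩
      simp
    · rintro _ ⟨z, hz, rfl⟩
      exact con_kj (h := h.symm) hg hC2 hC1 hs (y := z) (hSK hz)
    · exact ⟨⟨y, hSJ hy1⟩, hy1, rfl⟩
  · have h1 := con_oc (h := h.symm) hg hs (c := h ⟨c, hcJ⟩) (y := ⟨y, hSJ hy1⟩) hy2
    rw [h.symm_apply_apply] at h1
    exact h1

end Pool.Agent.H64.JS
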