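import Pool.Agent.H64.JS.TDR

/-!
# Module COM: the component of a critical point and its limit set

If the component of `c` in a closed forward invariant set meets the closure of the forward orbit of `f c` then it meets the limit set
of `c`. PROOF. A point of the closure of the forward orbit is in the limit set or `f^n c` with `n ≥ 1`; in the second case `f^n` maps
the component into itself.
-/

set_option autoImplicit false

open Filter Topology Metric Set

namespace Pool.Agent.H64.JS

variable {X : Type*} [TopologicalSpace X]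

theorem om_or [T1Space X] {f : X → X} {c y : X} (h : y ∈ OC f c) :
    MapClusterPt y atTop (fun n : ℕ => f^[n] c) ∨ ∃ n : ℕ, 1 ≤ n ∧ f^[n] c = y := by
  by_cases hp : ∃ n : ℕ, 1 ≤ n ∧ f^[n] c = y
  · exact Or.inr hp
  · left
    push Not at hp
    rw [mapClusterPt_iff_frequently]
    intro U hU
    rw [frequently_atTop]
    intro N
    have hfin : {x : X | ∃ n < N, 1 ≤ n ∧ f^[n] c = x}.Finite := by
      refine ((Set.finite_lt_nat N).image fun n => f^[n] c).subset ?_
      rintro x ⟨n, hn, -, rfl⟩
      exact ⟨n, hn, rfl⟩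
    have hc : y ∉ {x : X | ∃ n < N, 1 ≤ n ∧ f^[n] c = x} := by
      rintro ⟨n, -, hn, he⟩
      exact hp n hn he
    have hV : U ∩ {x : X | ∃ n < N, 1 ≤ n ∧ f^[n] c = x}ᶜ ∈ 𝓝 y :=
      inter_mem hU (hfin.isClosed.isOpen_compl.mem_nhds hc)
    obtain ⟨x, ⟨hxU, hxF⟩, n, hn, he⟩ := mem_closure_iff_nhds.1 h _ hV
    refine ⟨n, ?_, ?_⟩
    · by_contra hlt
      exact hxF ⟨n, not_le.1 hlt, hn, he⟩
    · rw [he]
      exact hxU

theorem kj_inv {C J : Set X} {f : X → X} (hf : Continuous f) : ∀ x ∈ KJ C J f, f x ∈ KJ C J f := by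
  have h : MapsTo f {y | ∃ c, c ∈ C ∧ c ∈ J ∧ ∃ n : ℕ, 1 ≤ n ∧ f^[n] c = y}
      {y | ∃ c, c ∈ C ∧ c ∈ J ∧ ∃ n : ℕ, 1 ≤ n ∧ f^[n] c = y} := by
    rintro y ⟨c, h1, h2, n, hn, rfl⟩
    exact ⟨c, h1, h2, n + 1, by omega, Function.iterate_succ_apply' f n c⟩
  exact h.closure hf

theorem cmp_cl {K : Set X} (hK : IsClosed K) (c : X) : IsClosed (connectedComponentIn K c) := by
  by_cases hc : c ∈ K
  · refine isClosed_of_closure_subset ?_
    refine isPreconnected_connectedComponentIn.closure.subset_connectedComponentIn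
      (subset_closure (mem_connectedComponentIn hc)) (closure_minimal (connectedComponentIn_subset K c) hK)
  · rw [connectedComponentIn_eq_empty hc]
    exact isClosed_empty

theorem cmp_om [CompactSpace X] [T1Space X] {f : X → X} (hf : Continuous f) {K : Set X} (hK : IsClosed K)
    (hKf : ∀ x ∈ K, f x ∈ K) {c : X} (h : (connectedComponentIn K c ∩ OC f c).Nonempty) :
    (connectedComponentIn K c ∩ {y | MapClusterPt y atTop fun n : ℕ => f^[n] c}).Nonempty := by
  obtain ⟨y, hy1, hy2⟩ := h
  rcases om_or hy2 with h1 | ⟨n, hn, he⟩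
  · exact ⟨y, hy1, h1⟩
  · have hcK : c ∈ K := by
      by_contra hc
      rw [connectedComponentIn_eq_empty hc] at hy1
      exact hy1
    obtain ⟨S, hS⟩ : ∃ S, S = connectedComponentIn K c := ⟨_, rfl⟩
    have hcS : c ∈ S := by rw [hS]; exact mem_connectedComponentIn hcK
    have hSc : IsClosed S := by rw [hS]; exact cmp_cl hK c
    have hSK : S ⊆ K := by rw [hS]; exact connectedComponentIn_subset K c
    have hSp : IsPreconnected S := by rw [hS]; exact isPreconnected_connectedComponentIn
    have hm : MapsTo (f^[n]) S S := by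
      have h1 : f^[n] '' S ⊆ connectedComponentIn K y := by
        refine (hSp.image _ (hf.iterate n).continuousOn).subset_connectedComponentIn ⟨c, hcS, he⟩ ?_
        rintro _ ⟨x, hx, rfl⟩
        have hm1 : MapsTo f K K := hKf
        exact hm1.iterate n (hSK hx)
      rw [← connectedComponentIn_eq hy1, ← hS] at h1
      exact fun x hx => h1 ⟨x, hx, rfl⟩
    rw [← hS]
    have hall : ∀ k : ℕ, f^[n * k] c ∈ S := by
      intro k
      rw [Function.iterate_mul]
      exact hm.iterate k hcS
    obtain ⟨x, hx, hxc⟩ := hSc.isCompact.exists_mapClusterPt (f := (atTop : Filter ℕ)) (u := fun k : ℕ => f^[n * k] c)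
      (by
        rw [le_principal_iff]
        exact Filter.mem_map.2 (Filter.Eventually.of_forall hall))
    refine ⟨x, hx, ?_⟩
    rw [mapClusterPt_iff_frequently] at hxc
    show MapClusterPt x atTop fun n : ℕ => f^[n] c
    rw [mapClusterPt_iff_frequently]
    intro U hU
    have h2 : Tendsto (fun k : ℕ => n * k) atTop atTop := tendsto_id.const_mul_atTop' (by omega)
    exact h2.frequently (hxc U hU)

theorem td_om [T1Space X] {f : X → X} {K : Set X} (hK : IsTotallyDisconnected K) {c : X}
    (h : (connectedComponentIn K c ∩ {y | MapClusterPt y atTop fun n : ℕ => f^[n] c}).Nonempty) :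
    MapClusterPt c atTop fun n : ℕ => f^[n] c := by
  obtain ⟨y, hy1, hy2⟩ := h
  have hcK : c ∈ K := by
    by_contra hn
    rw [connectedComponentIn_eq_empty hn] at hy1
    exact hy1
  have h1 := hK _ (connectedComponentIn_subset K c) isPreconnected_connectedComponentIn
  have h2 : y = c := h1 hy1 (mem_connectedComponentIn hcK)
  rw [h2] at hy2
  exact hy2

end Pool.Agent.H64.JS
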