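import Pool.Agent.H64.JS.PAR

/-!
# Module CNJ: conjugacies on the Julia sets
-/

set_option autoImplicit false

open Filter Topology Metric Set

namespace Pool.Agent.H64.JS

variable {X : Type*} [TopologicalSpace X]

theorem con_symm {J1 J2 : Set X} {f g : X → X} (hf : ∀ x ∈ J1, f x ∈ J1) {h : J1 ≃ₜ J2}
    (hh : ∀ x y : J1, f x = y → g (h x) = h y) : ∀ x y : J2, g x = y → f (h.symm x) = h.symm y := by
  intro x y hxy
  have h1 := hh (h.symm x) ⟨f (h.symm x), hf _ (h.symm x).2⟩ rfl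
  rw [h.apply_symm_apply, hxy] at h1
  have h2 : y = h ⟨f (h.symm x), hf _ (h.symm x).2⟩ := Subtype.ext h1
  rw [h2, h.symm_apply_apply]

theorem con_it {J1 J2 : Set X} {f g : X → X} (hf : ∀ x ∈ J1, f x ∈ J1) {h : J1 ≃ₜ J2}
    (hh : ∀ x y : J1, f x = y → g (h x) = h y) (n : ℕ) : ∀ x y : J1, f^[n] x = y → g^[n] (h x) = h y := by
  induction n with
  | zero =>
    intro x y hxy
    have : x = y := Subtype.ext hxy
    rw [this]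
    rfl
  | succ n ih =>
    intro x y hxy
    rw [Function.iterate_succ_apply] at hxy
    have h1 := ih ⟨f x, hf _ x.2⟩ y hxy
    rw [Function.iterate_succ_apply, hh x ⟨f x, hf _ x.2⟩ rfl]
    exact h1

theorem nhds_sub {J1 : Set X} {x : J1} {U : Set J1} (hU : U ∈ 𝓝 x) :
    ∃ U' ∈ 𝓝 (x : X), ∀ z : J1, (z : X) ∈ U' → z ∈ U := by
  rw [nhds_induced, mem_comap] at hU
  obtain ⟨U', h1, h2⟩ := hU
  exact ⟨U', h1, fun z hz => h2 hz⟩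

theorem con_om {J1 J2 : Set X} {f g : X → X} (hf : ∀ x ∈ J1, f x ∈ J1) {h : J1 ≃ₜ J2}
    (hh : ∀ x y : J1, f x = y → g (h x) = h y) {x y : J1}
    (hxy : MapClusterPt (y : X) atTop fun n : ℕ => f^[n] (x : X)) :
    MapClusterPt (h y : X) atTop fun n : ℕ => g^[n] (h x : X) := by
  rw [mapClusterPt_iff_frequently] at hxy ⊢
  intro U hU
  have h1 : {z : J1 | (h z : X) ∈ U} ∈ 𝓝 y := by
    have h2 : Continuous fun z : J1 => (h z : X) := continuous_subtype_val.comp h.continuous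
    exact h2.continuousAt hU
  obtain ⟨U', hU', h2⟩ := nhds_sub h1
  refine (hxy U' hU').mono fun n hn => ?_
  have h3 : f^[n] (x : X) ∈ J1 := by
    have : MapsTo f J1 J1 := hf
    exact this.iterate n x.2
  have h4 := con_it hf hh n x ⟨f^[n] x, h3⟩ rfl
  rw [h4]
  exact h2 ⟨f^[n] x, h3⟩ hn

/-- not locally injective on `J` at `c` -/
def NInj (J : Set X) (f : X → X) (c : X) : Prop :=
  ∀ U ∈ 𝓝 c, ∃ x ∈ U ∩ J, ∃ y ∈ U ∩ J, x ≠ y ∧ f x = f y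

theorem con_ninj {J1 J2 : Set X} {f g : X → X} (hf : ∀ x ∈ J1, f x ∈ J1) {h : J1 ≃ₜ J2}
    (hh : ∀ x y : J1, f x = y → g (h x) = h y) {c : J1} (hc : NInj J1 f c) : NInj J2 g (h c) := by
  intro U hU
  have h1 : {z : J1 | (h z : X) ∈ U} ∈ 𝓝 c := by
    have h2 : Continuous fun z : J1 => (h z : X) := continuous_subtype_val.comp h.continuous
    exact h2.continuousAt hU
  obtain ⟨U', hU', h2⟩ := nhds_sub h1
  obtain ⟨x, hx, y, hy, hxy, he⟩ := hc U' hU'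
  refine ⟨h ⟨x, hx.2⟩, ⟨h2 ⟨x, hx.2⟩ hx.1, (h ⟨x, hx.2⟩).2⟩, h ⟨y, hy.2⟩, ⟨h2 ⟨y, hy.2⟩ hy.1, (h ⟨y, hy.2⟩).2⟩,
    ?_, ?_⟩
  · intro h3
    have h4 := h.injective (Subtype.ext h3)
    exact hxy (congrArg Subtype.val h4)
  · rw [hh ⟨x, hx.2⟩ ⟨f x, hf _ hx.2⟩ rfl, hh ⟨y, hy.2⟩ ⟨f x, hf _ hx.2⟩ he.symm]

/-- the covering property is invariant under conjugacies on the Julia sets -/
theorem con_cov {J1 J2 : Set X} {f g : X → X} (hf : ∀ x ∈ J1, f x ∈ J1) (hg : ∀ x ∈ J2, g x ∈ J2)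
    {C1 C2 : Set X} (hC1 : ∀ c ∈ J1, c ∈ C1 ↔ NInj J1 f c) (hC2 : ∀ c ∈ J2, c ∈ C2 ↔ NInj J2 g c) {h : J1 ≃ₜ J2}
    (hh : ∀ x y : J1, f x = y → g (h x) = h y)
    (H : ∀ c ∈ C2, c ∈ J2 → ∃ r ∈ C2, r ∈ J2 ∧ (MapClusterPt r atTop fun n : ℕ => g^[n] r) ∧
      MapClusterPt c atTop fun n : ℕ => g^[n] r) :
    ∀ c ∈ C1, c ∈ J1 → ∃ r ∈ C1, r ∈ J1 ∧ (MapClusterPt r atTop fun n : ℕ => f^[n] r) ∧
      MapClusterPt c atTop fun n : ℕ => f^[n] r := by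
  intro c hc hcJ
  have hs := con_symm hf hh
  have h1 := con_ninj hf hh (c := ⟨c, hcJ⟩) ((hC1 c hcJ).1 hc)
  obtain ⟨r, hr, hrJ, h2, h3⟩ := H (h ⟨c, hcJ⟩) ((hC2 _ (h ⟨c, hcJ⟩).2).2 h1) (h ⟨c, hcJ⟩).2
  have h4 := con_ninj (h := h.symm) hg hs (c := ⟨r, hrJ⟩) ((hC2 r hrJ).1 hr)
  refine ⟨h.symm ⟨r, hrJ⟩, (hC1 _ (h.symm ⟨r, hrJ⟩).2).2 h4, (h.symm ⟨r, hrJ⟩).2,
    con_om (h := h.symm) hg hs (x := ⟨r, hrJ⟩) (y := ⟨r, hrJ⟩) h2, ?_⟩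
  have h5 := con_om (h := h.symm) hg hs (x := ⟨r, hrJ⟩) (y := h ⟨c, hcJ⟩) h3
  rw [h.symm_apply_apply] at h5
  exact h5

end Pool.Agent.H64.JS
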