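import Pool.Agent.H64.JS.TWO
import Pool.Agent.H64.MF.GB

/-!
# Module PAR: near a critical point of a rational map every other point has a partner
-/

set_option autoImplicit false

open Filter Topology Polynomial Metric Set

namespace Pool.Agent.H64.JS

open Pool.Agent.H44.Fatou Pool.Agent.H32.BT Pool.Agent.H79.Eul Pool.Agent.H79.Par
open Pool.Agent.H35.EX Pool.Agent.H44.RR Pool.Agent.H56.HR Pool.Agent.H44.RC Pool.Agent.H47.RJ

theorem part_aux {R S : Polynomial ℂ} {t : ℂ} (hW : (Wr R S).eval t = 0)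
    (hS : S.eval t ≠ 0) (hnc : ¬ ∀ᶠ x in 𝓝 t, R.eval x * S.eval t = R.eval t * S.eval x) {V : Set ℂ}
    (hV : V ∈ 𝓝 t) : ∀ᶠ x in 𝓝 t, x ≠ t → ∃ y ∈ V, y ≠ x ∧ R.eval y * S.eval x = R.eval x * S.eval y := by
  have hR : AnalyticAt ℂ (fun z => R.eval z) t := by
    have := AnalyticOnNhd.eval_polynomial (𝕜 := ℂ) (A := ℂ) R
    exact this t (Set.mem_univ _)
  have hSa : AnalyticAt ℂ (fun z => S.eval z) t := by
    have := AnalyticOnNhd.eval_polynomial (𝕜 := ℂ) (A := ℂ) S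
    exact this t (Set.mem_univ _)
  have hf : AnalyticAt ℂ (fun z => R.eval z / S.eval z) t := hR.div hSa hS
  have hd : deriv (fun z => R.eval z / S.eval z) t = 0 := by
    have h1 := (R.hasDerivAt t).div (S.hasDerivAt t) hS
    have h2 := h1.deriv
    have h3 : deriv (fun z => R.eval z / S.eval z) t =
        (eval t (derivative R) * eval t S - eval t R * eval t (derivative S)) / eval t S ^ 2 := h2
    rw [h3]
    have h4 : eval t (derivative R) * eval t S - eval t R * eval t (derivative S) = 0 := by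
      have : (Wr R S).eval t = eval t (derivative R) * eval t S
        - eval t R * eval t (derivative S) := by
        unfold Wr; rw [eval_sub, eval_mul, eval_mul]
      rw [← this]; exact hW
    rw [h4, zero_div]
  have hne : ∀ᶠ x in 𝓝 t, S.eval x ≠ 0 := (S.continuous.tendsto t).eventually_ne hS
  have hV2 : V ∩ {z | S.eval z ≠ 0} ∈ 𝓝 t := inter_mem hV hne
  have hnz : ¬ ∀ᶠ z in 𝓝 t, (fun z => R.eval z / S.eval z) z - (fun z => R.eval z / S.eval z) t = 0 := by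
    intro h
    apply hnc
    filter_upwards [h, hne] with x h1 h2
    have h3 : R.eval x / S.eval x = R.eval t / S.eval t := sub_eq_zero.1 h1
    rw [div_eq_div_iff h2 hS] at h3
    exact h3
  filter_upwards [two_near hf hd hnz hV2, hne] with x h1 h2 hx
  obtain ⟨y, hy, hyx, h3⟩ := h1 hx
  refine ⟨y, hy.1, hyx, ?_⟩
  have h4 : R.eval y / S.eval y = R.eval x / S.eval x := h3
  rw [div_eq_div_iff hy.2 h2] at h4
  exact h4

theorem part_wr {R S : Polynomial ℂ} {t : ℂ} (hW : (Wr R S).eval t = 0)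
    (hRS : R.eval t ≠ 0 ∨ S.eval t ≠ 0) (hnc : ¬ ∀ᶠ x in 𝓝 t, R.eval x * S.eval t = R.eval t * S.eval x)
    {V : Set ℂ} (hV : V ∈ 𝓝 t) :
    ∀ᶠ x in 𝓝 t, x ≠ t → ∃ y ∈ V, y ≠ x ∧ R.eval y * S.eval x = R.eval x * S.eval y := by
  rcases hRS with h1 | h1
  · have hW' : (Wr S R).eval t = 0 := by
      have : Wr S R = - Wr R S := by unfold Wr; ring
      rw [this, eval_neg, hW, neg_zero]
    have hnc' : ¬ ∀ᶠ x in 𝓝 t, S.eval x * R.eval t = S.eval t * R.eval x := by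
      intro h
      apply hnc
      filter_upwards [h] with x hx
      linear_combination -hx
    filter_upwards [part_aux hW' h1 hnc' hV] with x hx hxt
    obtain ⟨y, h2, h3, h4⟩ := hx hxt
    exact ⟨y, h2, h3, by linear_combination -h4⟩
  · exact part_aux hW h1 hnc hV

variable {d : ℕ} {v : E d}

open Pool.Agent.H91.Fatou in
/-- near a critical point every other point has a partner with the same value -/
theorem partner (hd : 2 ≤ d) (hcop : IsCoprime (pol v.1) (pol v.2))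
    (hdeg : max (pol v.1).natDegree (pol v.2).natDegree = d) {c : OnePoint ℂ} (hc : IsCrit (Rf v) c)
    {V : Set (OnePoint ℂ)} (hV : V ∈ 𝓝 c) : ∀ᶠ x in 𝓝 c, x ≠ c → ∃ y ∈ V, y ≠ x ∧ Rf v y = Rf v x := by
  obtain ⟨α, β, γ, δ, hD, ho, h0⟩ := exists_chart c
  obtain ⟨R, hR⟩ : ∃ R, R = lin α β γ δ (dg (pol v.1) (pol v.2)) (pol v.1) := ⟨_, rfl⟩
  obtain ⟨S, hS⟩ : ∃ S, S = lin α β γ δ (dg (pol v.1) (pol v.2)) (pol v.2) := ⟨_, rfl⟩
  have hval : ∀ t : ℂ, Rf v (ch α β γ δ t) = pt (R.eval t) (S.eval t) ∧ (R.eval t ≠ 0 ∨ S.eval t ≠ 0) := by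
    intro t
    rw [hR, hS, lin_eval, lin_eval]
    refine ⟨?_, hom_ne hcop (ch_ne hD t)⟩
    unfold Pool.Agent.H91.Fatou.ch
    exact rat_pt (ch_ne hD t)
  have hW : (Wr R S).eval 0 = 0 := by
    by_contra hne
    apply hc
    rw [hR, hS] at hne
    have h1 := injOn_of_wr hD ho hne
    rw [h0] at h1
    exact h1
  have hnc : ¬ ∀ᶠ x in 𝓝 (0 : ℂ), R.eval x * S.eval 0 = R.eval 0 * S.eval x := by
    intro h
    obtain ⟨r, hr, hb⟩ := Metric.eventually_nhds_iff_ball.1 h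
    have h1 : ∀ x ∈ ball (0 : ℂ) r, Rf v (Pool.Agent.H91.Fatou.ch α β γ δ x) = Rf v c := by
      intro x hx
      rw [← h0, (hval x).1, (hval 0).1]
      exact pt_eq_pt (hval x).2 (hval 0).2 (hb x hx)
    have h2 : (Pool.Agent.H91.Fatou.ch α β γ δ '' ball (0 : ℂ) r).Finite := by
      refine (rat_fiber_finite hcop (by omega) (Rf v c)).subset ?_
      rintro _ ⟨x, hx, rfl⟩
      exact h1 x hx
    have h3 : (ball (0 : ℂ) r).Finite := h2.of_finite_image ho.injective.injOn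
    have h4 : (ball (0 : ℂ) r).Infinite := infinite_of_mem_nhds (0 : ℂ) (ball_mem_nhds 0 hr)
    exact h4 h3
  have hV' : Pool.Agent.H91.Fatou.ch α β γ δ ⁻¹' V ∈ 𝓝 (0 : ℂ) := by
    have h1 := ho.continuous.continuousAt (x := (0 : ℂ))
    apply h1
    rw [h0]
    exact hV
  have h1 := part_wr hW (hval 0).2 hnc hV'
  have h2 : 𝓝 c = map (Pool.Agent.H91.Fatou.ch α β γ δ) (𝓝 0) := by
    rw [ho.map_nhds_eq, h0]
  rw [h2, eventually_map]
  filter_upwards [h1] with x hx hxc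
  obtain ⟨y, hy, hyx, h3⟩ := hx (fun h4 => hxc (by rw [h4, h0]))
  refine ⟨Pool.Agent.H91.Fatou.ch α β γ δ y, hy, fun h4 => hyx (ho.injective h4), ?_⟩
  rw [(hval y).1, (hval x).1]
  exact pt_eq_pt (hval y).2 (hval x).2 h3

/-- critical points of the Julia set are the points where the map is not locally injective on the Julia set -/
theorem crit_js (hd : 2 ≤ d) (hcop : IsCoprime (pol v.1) (pol v.2))
    (hdeg : max (pol v.1).natDegree (pol v.2).natDegree = d) {c : OnePoint ℂ} (hcJ : c ∈ JS (Rf v)) :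
    IsCrit (Rf v) c ↔ ∀ U ∈ 𝓝 c, ∃ x ∈ U ∩ JS (Rf v), ∃ y ∈ U ∩ JS (Rf v), x ≠ y ∧ Rf v x = Rf v y := by
  constructor
  · intro hc U hU
    have h1 := partner hd hcop hdeg hc hU
    obtain ⟨ε, hε, hεU⟩ := Pool.Agent.H47.RJ.ch_nhds (inter_mem hU h1)
    obtain ⟨x, hx, hxc⟩ := ((js_perfect hd hcop hdeg hcJ hε).diff (finite_singleton c)).nonempty
    obtain ⟨hxU, hx1⟩ := hεU x hx.2
    obtain ⟨y, hy, hyx, hxy⟩ := hx1 hxc
    refine ⟨x, ⟨hxU, hx.1⟩, y, ⟨hy, ?_⟩, hyx.symm, hxy.symm⟩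
    intro hyF
    apply hx.1
    have e1 := Pool.Agent.H47.RJ.fs_iff (v := v) (by omega) hcop hdeg 1 y
    have e2 := Pool.Agent.H47.RJ.fs_iff (v := v) (by omega) hcop hdeg 1 x
    rw [Function.iterate_one] at e1 e2
    rw [hxy] at e1
    exact e2.1 (e1.2 hyF)
  · rintro h ⟨U, hU, hinj⟩
    obtain ⟨x, hx, y, hy, hxy, he⟩ := h U hU
    exact hxy (hinj hx.1 hy.1 he)

end Pool.Agent.H64.JS
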