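import Pool.Agent.H64.JS.CNK

/-!
# Module TDR: totally disconnected post-critical sets
-/

set_option autoImplicit false

open Filter Topology Metric Set

namespace Pool.Agent.H64.JS

variable {X : Type*} [TopologicalSpace X]

/-- a point of the closure of its forward orbit is recurrent -/
theorem oc_rec [T1Space X] {f : X → X} {c : X} (h : c ∈ OC f c) : MapClusterPt c atTop fun n : ℕ => f^[n] c := by
  rw [mapClusterPt_iff_frequently]
  by_cases hp : ∃ n : ℕ, 1 ≤ n ∧ f^[n] c = c
  · obtain ⟨n, hn, hc⟩ := hp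
    intro U hU
    rw [frequently_atTop]
    intro N
    refine ⟨n * N, Nat.le_mul_of_pos_left _ hn, ?_⟩
    rw [Function.iterate_mul, Function.iterate_fixed hc]
    exact mem_of_mem_nhds hU
  · push Not at hp
    intro U hU
    rw [frequently_atTop]
    intro N
    have hfin : {y : X | ∃ n < N, 1 ≤ n ∧ f^[n] c = y}.Finite := by
      refine ((Set.finite_lt_nat N).image fun n => f^[n] c).subset ?_
      rintro y ⟨n, hn, -, rfl⟩
      exact ⟨n, hn, rfl⟩
    have hc : c ∉ {y : X | ∃ n < N, 1 ≤ n ∧ f^[n] c = y} := by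
      rintro ⟨n, -, hn, he⟩
      exact hp n hn he
    have hV : U ∩ {y : X | ∃ n < N, 1 ≤ n ∧ f^[n] c = y}ᶜ ∈ 𝓝 c :=
      inter_mem hU (hfin.isClosed.isOpen_compl.mem_nhds hc)
    obtain ⟨y, ⟨hyU, hyF⟩, n, hn, he⟩ := mem_closure_iff_nhds.1 h _ hV
    refine ⟨n, ?_, ?_⟩
    · by_contra hlt
      exact hyF ⟨n, not_le.1 hlt, hn, he⟩
    · rw [he]
      exact hyU

theorem td_rec [T1Space X] {f : X → X} {K : Set X} (hK : IsTotallyDisconnected K) {c : X}
    (h : (connectedComponentIn K c ∩ OC f c).Nonempty) : MapClusterPt c atTop fun n : ℕ => f^[n] c := by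
  obtain ⟨y, hy1, hy2⟩ := h
  have hcK : c ∈ K := by
    by_contra hn
    rw [connectedComponentIn_eq_empty hn] at hy1
    exact hy1
  have h1 := hK _ (connectedComponentIn_subset K c) isPreconnected_connectedComponentIn
  have h2 : y = c := h1 hy1 (mem_connectedComponentIn hcK)
  rw [h2] at hy2
  exact oc_rec hy2

end Pool.Agent.H64.JS
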