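import Mathlib
import Pool.Agent.H91.Fatou.Crit

/-!
# Module TWO: near a critical point every other point has a partner with the same value

The proof is the proof of `not_injOn_of_deriv` (H91/Fatou/Crit).
-/

set_option autoImplicit false

open Filter Topology Polynomial OnePoint Metric

namespace Pool.Agent.H64.JS

theorem two_near {f : ℂ → ℂ} {z0 : ℂ} (hf : AnalyticAt ℂ f z0) (h0 : deriv f z0 = 0)
    (hz : ¬ ∀ᶠ z in 𝓝 z0, f z - f z0 = 0) {V : Set ℂ} (hV : V ∈ 𝓝 z0) :
    ∀ᶠ z in 𝓝 z0, z ≠ z0 → ∃ z' ∈ V, z' ≠ z ∧ f z' = f z := by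
  have hF : AnalyticAt ℂ (fun z => f z - f z0) z0 := hf.sub analyticAt_const
  obtain ⟨n, g, hg, hg0, hfg⟩ := hF.exists_eventuallyEq_pow_smul_nonzero_iff.2 hz
  have hn0 : n ≠ 0 := by
    rintro rfl
    have h1 := hfg.self_of_nhds
    simp only [sub_self, pow_zero, one_smul] at h1
    exact hg0 h1.symm
  have hn1 : n ≠ 1 := by
    rintro rfl
    have h1 : HasDerivAt (fun z => (z - z0) ^ 1 • g z) (g z0) z0 := by
      have h2 := ((hasDerivAt_id z0).sub_const z0).mul hg.differentiableAt.hasDerivAt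
      have h3 : (1 * g z0 + (id z0 - z0) * deriv g z0) = g z0 := by simp
      rw [h3] at h2
      apply h2.congr_of_eventuallyEq
      filter_upwards with z
      simp
    have h2 : HasDerivAt (fun z => f z - f z0) (g z0) z0 := h1.congr_of_eventuallyEq hfg
    have h3 := h2.deriv
    rw [deriv_sub_const] at h3
    rw [h0] at h3
    exact hg0 h3.symm
  set h : ℂ → ℂ := fun z => (g z / g z0) ^ ((n : ℂ)⁻¹) with hh
  have hgd : AnalyticAt ℂ (fun z => g z / g z0) z0 := hg.div_const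
  have hslit : g z0 / g z0 ∈ Complex.slitPlane := by
    rw [div_self hg0]; exact Complex.one_mem_slitPlane
  have hha : AnalyticAt ℂ h z0 := hgd.cpow analyticAt_const hslit
  have hh0 : h z0 = 1 := by
    rw [hh]; simp only; rw [div_self hg0, Complex.one_cpow]
  have hhn : ∀ z, h z ^ n = g z / g z0 := fun z => Complex.cpow_nat_inv_pow _ hn0
  set φ : ℂ → ℂ := fun z => (z - z0) * h z with hφ
  have hφa : AnalyticAt ℂ φ z0 := (analyticAt_id.sub analyticAt_const).mul hha
  have hφd : deriv φ z0 = 1 := by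
    have h2 := ((hasDerivAt_id z0).sub_const z0).mul hha.differentiableAt.hasDerivAt
    have h3 : (1 * h z0 + (id z0 - z0) * deriv h z0) = 1 := by simp [hh0]
    rw [h3] at h2
    exact h2.deriv
  have hφs : HasStrictDerivAt φ 1 z0 := by
    have := hφa.hasStrictDerivAt
    rwa [hφd] at this
  have hmap := hφs.map_nhds_eq one_ne_zero
  have hφ0 : φ z0 = 0 := by rw [hφ]; simp
  rw [hφ0] at hmap
  have hgood : {z | f z - f z0 = (z - z0) ^ n • g z} ∩ V ∈ 𝓝 z0 := inter_mem hfg hV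
  have himg : φ '' ({z | f z - f z0 = (z - z0) ^ n • g z} ∩ V) ∈ 𝓝 (0 : ℂ) := by
    rw [← hmap]; exact image_mem_map hgood
  obtain ⟨r, hr, hb⟩ := Metric.mem_nhds_iff.1 himg
  have hζ := Complex.isPrimitiveRoot_exp n hn0
  set ζ := Complex.exp (2 * Real.pi * Complex.I / n)
  have hζ1 : ζ ≠ 1 := hζ.ne_one (by omega)
  have hζn : ζ ^ n = 1 := hζ.pow_eq_one
  have hζnorm : ‖ζ‖ = 1 := hζ.norm'_eq_one hn0
  have key : ∀ z, f z - f z0 = (z - z0) ^ n • g z → f z - f z0 = g z0 * (φ z) ^ n := by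
    intro z hz
    rw [hz, hφ]
    simp only
    rw [mul_pow, hhn, smul_eq_mul]
    field_simp
  have hφc : ∀ᶠ z in 𝓝 z0, φ z ∈ ball (0 : ℂ) r := by
    have h1 := hφa.continuousAt.tendsto
    rw [hφ0] at h1
    exact h1.eventually (ball_mem_nhds 0 hr)
  have hhne : ∀ᶠ z in 𝓝 z0, h z ≠ 0 :=
    hha.continuousAt.eventually_ne (by rw [hh0]; exact one_ne_zero)
  filter_upwards [hfg, hφc, hhne] with z h1 h2 h3 hzz
  have hu2 : ζ * φ z ∈ ball (0 : ℂ) r := by
    rw [mem_ball_zero_iff] at h2 ⊢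
    rw [norm_mul, hζnorm, one_mul]
    exact h2
  obtain ⟨z2, ⟨h4, h4V⟩, h4φ⟩ := hb hu2
  have hφz : φ z ≠ 0 := mul_ne_zero (sub_ne_zero.2 hzz) h3
  refine ⟨z2, h4V, ?_, ?_⟩
  · intro h5
    rw [h5] at h4φ
    apply hζ1
    have h6 : (ζ - 1) * φ z = 0 := by linear_combination -h4φ
    rcases mul_eq_zero.1 h6 with h7 | h7
    · linear_combination h7
    · exact absurd h7 hφz
  · have e1 := key z h1
    have e2 := key z2 h4
    rw [h4φ, mul_pow, hζn, one_mul, ← e1] at e2
    linear_combination e2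

end Pool.Agent.H64.JS
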